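import Mathlib

/-!
# Fourier transforms of probability measures on the line and a completeness criterion
-/

set_option autoImplicit false
set_option linter.unusedSectionVars false

open MeasureTheory Set Filter Topology Complex
open scoped ENNReal Real ComplexConjugate InnerProductSpace

namespace Pool.Agent.X212.Spec

/-- `ex x = exp(2πi x)` -/
noncomputable def ex (x : ℝ) : ℂ := Complex.exp (2 * π * Complex.I * (x : ℂ))

theorem ex_add (x y : ℝ) : ex (x + y) = ex x * ex y := by
  unfold ex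
  rw [← Complex.exp_add]
  congr 1
  push_cast
  ring

@[simp] theorem ex_zero : ex 0 = 1 := by simp [ex]

theorem ex_int (n : ℤ) : ex (n : ℝ) = 1 := by
  unfold ex
  rw [Complex.exp_eq_one_iff]
  exact ⟨n, by push_cast; ring⟩

theorem ex_add_int (x : ℝ) (n : ℤ) : ex (x + n) = ex x := by
  rw [ex_add, ex_int, mul_one]

theorem conj_ex (x : ℝ) : conj (ex x) = ex (-x) := by
  unfold ex
  rw [← Complex.exp_conj]
  congr 1
  simp only [map_mul, Complex.conj_ofReal, Complex.conj_I, map_ofNat]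
  push_cast
  ring

theorem norm_ex (x : ℝ) : ‖ex x‖ = 1 := by
  unfold ex
  rw [show (2 * π * Complex.I * (x : ℂ)) = ((2 * π * x : ℝ) : ℂ) * Complex.I by push_cast; ring]
  exact Complex.norm_exp_ofReal_mul_I _

theorem ex_sub (x y : ℝ) : ex (x - y) = ex x * conj (ex y) := by
  rw [sub_eq_add_neg, ex_add, conj_ex]

theorem continuous_ex : Continuous ex := by
  unfold ex
  fun_prop

/-- The Fourier transform of `μ`. -/
noncomputable def F (μ : Measure ℝ) (ξ : ℝ) : ℂ := ∫ x, ex (ξ * x) ∂μ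

theorem integrable_ex (μ : Measure ℝ) [IsFiniteMeasure μ] (ξ : ℝ) :
    Integrable (fun x => ex (ξ * x)) μ := by
  refine (integrable_const (1 : ℝ)).mono'
    ((continuous_ex.comp (continuous_const.mul continuous_id)).aestronglyMeasurable) ?_
  exact Eventually.of_forall (fun x => by simp [norm_ex])

theorem F_eq_charFun (μ : Measure ℝ) (ξ : ℝ) : F μ ξ = charFun μ (2 * π * ξ) := by
  rw [charFun_apply_real]
  unfold F ex
  congr 1
  ext x
  congr 1
  push_cast
  ring

theorem charFun_eq_F (μ : Measure ℝ) (t : ℝ) : charFun μ t = F μ (t / (2 * π)) := by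
  rw [F_eq_charFun]
  congr 1
  field_simp

theorem F_zero (μ : Measure ℝ) [IsProbabilityMeasure μ] : F μ 0 = 1 := by
  rw [F_eq_charFun]
  simp

theorem norm_F_le (μ : Measure ℝ) [IsProbabilityMeasure μ] (ξ : ℝ) : ‖F μ ξ‖ ≤ 1 := by
  rw [F_eq_charFun]
  exact norm_charFun_le_one _

theorem continuous_F (μ : Measure ℝ) [IsProbabilityMeasure μ] : Continuous (F μ) := by
  unfold F
  refine continuous_of_dominated (bound := fun _ => 1) ?_ ?_ (integrable_const _) ?_
  · intro ξ
    exact (integrable_ex μ ξ).aestronglyMeasurable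
  · intro ξ
    exact Eventually.of_forall (fun x => by simp [norm_ex])
  · refine Eventually.of_forall (fun x => ?_)
    exact continuous_ex.comp (continuous_id.mul continuous_const)

theorem ext_of_F {μ ν : Measure ℝ} [IsFiniteMeasure μ] [IsFiniteMeasure ν]
    (h : ∀ ξ, F μ ξ = F ν ξ) : μ = ν := by
  apply Measure.ext_of_charFun
  funext t
  rw [charFun_eq_F, charFun_eq_F, h]

theorem F_map (μ : Measure ℝ) (r c ξ : ℝ) :
    F (μ.map (fun x => r * (x + c))) ξ = ex (ξ * r * c) * F μ (ξ * r) := by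
  unfold F
  have hc : Continuous (fun x => ex (ξ * x)) :=
    continuous_ex.comp (continuous_const.mul continuous_id)
  rw [integral_map (by fun_prop) hc.aestronglyMeasurable]
  rw [← integral_const_mul]
  congr 1
  ext x
  rw [← ex_add]
  congr 1
  ring

theorem F_smul (μ : Measure ℝ) (c : ℝ≥0∞) (ξ : ℝ) : F (c • μ) ξ = c.toReal * F μ ξ := by
  unfold F
  rw [integral_smul_measure]
  simp

theorem F_sum {ι : Type*} (s : Finset ι) (μ : ι → Measure ℝ) [∀ i, IsFiniteMeasure (μ i)] (ξ : ℝ) :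
    F (∑ i ∈ s, μ i) ξ = ∑ i ∈ s, F (μ i) ξ := by
  unfold F
  rw [integral_finsetSum_measure]
  exact fun i _ => integrable_ex _ _

section Hilbert

variable {E : Type*} [NormedAddCommGroup E] [InnerProductSpace ℂ E] {ι : Type*}

theorem norm_sub_proj_sq {v : ι → E} (hv : Orthonormal ℂ v) (x : E) (s : Finset ι) :
    ‖x - ∑ i ∈ s, inner ℂ (v i) x • v i‖ ^ 2 = ‖x‖ ^ 2 - ∑ i ∈ s, ‖inner ℂ (v i) x‖ ^ 2 := by
  classical
  have h2 : (∑ i ∈ s, ∑ j ∈ s, inner ℂ (v i) x * inner ℂ x (v j) * inner ℂ (v j) (v i)) =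
      (∑ k ∈ s, inner ℂ (v k) x * inner ℂ x (v k) : ℂ) := by
    exact hv.inner_left_right_finset
  have h3 : ∀ z : ℂ, RCLike.re (z * conj z) = ‖z‖ ^ 2 := by
    intro z
    simp only [RCLike.mul_conj]
    norm_cast
  rw [@norm_sub_sq ℂ, sub_add, sub_right_inj]
  simp only [@InnerProductSpace.norm_sq_eq_re_inner ℂ E, inner_sum, sum_inner]
  simp only [inner_smul_right, two_mul, inner_smul_left, inner_conj_symm, ← mul_assoc, h2,
    add_sub_cancel_right]
  rw [map_sum]
  simp only [← inner_conj_symm x, h3]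

theorem inner_eq_zero_of_parseval {v : ι → E} (hv : Orthonormal ℂ v) (x : E)
    (hx : ∀ ε > 0, ∃ s : Finset ι, ‖x‖ ^ 2 - ε ≤ ∑ i ∈ s, ‖inner ℂ (v i) x‖ ^ 2) (f : E)
    (hf : ∀ i, inner ℂ (v i) f = 0) : inner ℂ x f = 0 := by
  by_contra hne
  have h1 : 0 < ‖inner ℂ x f‖ := norm_pos_iff.2 hne
  have hfn : 0 < ‖f‖ := by
    rw [norm_pos_iff]
    rintro rfl
    simp at hne
  obtain ⟨s, hs⟩ := hx ((‖inner ℂ x f‖ / ‖f‖) ^ 2 / 2) (by positivity)
  have h2 := norm_sub_proj_sq hv x s
  have h3 : inner ℂ (x - ∑ i ∈ s, inner ℂ (v i) x • v i) f = inner ℂ x f := by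
    rw [inner_sub_left, sum_inner]
    have : ∑ i ∈ s, inner ℂ (inner ℂ (v i) x • v i) f = 0 := by
      refine Finset.sum_eq_zero (fun i _ => ?_)
      rw [inner_smul_left, hf i, mul_zero]
    rw [this, sub_zero]
  have h4 : ‖inner ℂ x f‖ ≤ ‖x - ∑ i ∈ s, inner ℂ (v i) x • v i‖ * ‖f‖ := by
    rw [← h3]
    exact norm_inner_le_norm _ _
  have h5 : ‖inner ℂ x f‖ / ‖f‖ ≤ ‖x - ∑ i ∈ s, inner ℂ (v i) x • v i‖ := by
    rw [div_le_iff₀ hfn]
    exact h4
  have h6 : 0 < ‖inner ℂ x f‖ / ‖f‖ := by positivity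
  have h7 : (‖inner ℂ x f‖ / ‖f‖) ^ 2 ≤ ‖x - ∑ i ∈ s, inner ℂ (v i) x • v i‖ ^ 2 :=
    pow_le_pow_left₀ h6.le h5 2
  have h8 : 0 < (‖inner ℂ x f‖ / ‖f‖) ^ 2 := by positivity
  linarith

end Hilbert

section Unique

variable {μ : Measure ℝ} [IsFiniteMeasure μ]

theorem real_zero {g : ℝ → ℝ} (hg : Integrable g μ) (h : ∀ ξ : ℝ, ∫ x, (g x : ℂ) * ex (ξ * x) ∂μ = 0) :
    g =ᵐ[μ] 0 := by
  have hgm : AEMeasurable g μ := hg.aestronglyMeasurable.aemeasurable
  have key : ∀ (k : ℝ → ℝ), Integrable k μ → ∀ ξ : ℝ,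
      F (μ.withDensity (fun x => ENNReal.ofReal (k x))) ξ =
        ∫ x, ((max (k x) 0 : ℝ) : ℂ) * ex (ξ * x) ∂μ := by
    intro k hk ξ
    unfold F
    rw [integral_withDensity_eq_integral_toReal_smul₀
      (hk.aestronglyMeasurable.aemeasurable.ennreal_ofReal)
      (Eventually.of_forall (fun x => ENNReal.ofReal_lt_top))]
    congr 1
  have hfin : ∀ (k : ℝ → ℝ), Integrable k μ →
      IsFiniteMeasure (μ.withDensity (fun x => ENNReal.ofReal (k x))) := by
    intro k hk
    refine isFiniteMeasure_withDensity_ofReal ?_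
    exact hk.2
  have hint : ∀ (k : ℝ → ℝ), Integrable k μ → ∀ ξ : ℝ,
      Integrable (fun x => ((max (k x) 0 : ℝ) : ℂ) * ex (ξ * x)) μ := by
    intro k hk ξ
    have h1 : Integrable (fun x => ((max (k x) 0 : ℝ) : ℂ)) μ := (hk.pos_part).ofReal
    refine h1.mul_bdd (c := 1)
      ((continuous_ex.comp (continuous_const.mul continuous_id)).aestronglyMeasurable) ?_
    exact Eventually.of_forall (fun x => by simp [norm_ex])
  have h1 := hfin g hg
  have h2 := hfin (fun x => - g x) hg.neg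
  have h3 : μ.withDensity (fun x => ENNReal.ofReal (g x)) =
      μ.withDensity (fun x => ENNReal.ofReal (-g x)) := by
    apply ext_of_F
    intro ξ
    rw [key g hg, key (fun x => - g x) hg.neg, ← sub_eq_zero, ← integral_sub (hint g hg ξ)
      (hint (fun x => - g x) hg.neg ξ), ← h ξ]
    congr 1
    ext x
    rw [← sub_mul, ← Complex.ofReal_sub]
    congr 2
    rcases le_total (g x) 0 with hx | hx
    · rw [max_eq_right hx, max_eq_left (by linarith)]
      ring
    · rw [max_eq_left hx, max_eq_right (by linarith)]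
      ring
  rw [withDensity_eq_iff_of_sigmaFinite hgm.ennreal_ofReal
    (AEMeasurable.ennreal_ofReal (f := fun x => - g x) hgm.neg)] at h3
  filter_upwards [h3] with x hx
  rcases le_total (g x) 0 with h4 | h4
  · rw [ENNReal.ofReal_of_nonpos h4] at hx
    have h5 : -g x ≤ 0 := ENNReal.ofReal_eq_zero.1 hx.symm
    show g x = 0
    linarith
  · rw [ENNReal.ofReal_of_nonpos (by linarith : -g x ≤ 0)] at hx
    have h5 : g x ≤ 0 := ENNReal.ofReal_eq_zero.1 hx
    show g x = 0
    linarith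

theorem complex_zero {f : ℝ → ℂ} (hf : Integrable f μ)
    (h : ∀ ξ : ℝ, ∫ x, f x * ex (ξ * x) ∂μ = 0) : f =ᵐ[μ] 0 := by
  have hb : ∀ (k : ℝ → ℂ), Integrable k μ → ∀ ξ : ℝ, Integrable (fun x => k x * ex (ξ * x)) μ := by
    intro k hk ξ
    refine hk.mul_bdd (c := 1)
      ((continuous_ex.comp (continuous_const.mul continuous_id)).aestronglyMeasurable) ?_
    exact Eventually.of_forall (fun x => by simp [norm_ex])
  have hc : Integrable (fun x => conj (f x)) μ := by
    refine hf.congr' ?_ ?_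
    · exact (Complex.continuous_conj.comp_aestronglyMeasurable hf.aestronglyMeasurable)
    · exact Eventually.of_forall (fun x => by simp)
  have h' : ∀ ξ : ℝ, ∫ x, conj (f x) * ex (ξ * x) ∂μ = 0 := by
    intro ξ
    have h1 : ∀ x, conj (f x) * ex (ξ * x) = conj (f x * ex (-ξ * x)) := by
      intro x
      rw [map_mul, conj_ex]
      congr 2
      ring
    simp only [h1]
    rw [integral_conj, h, map_zero]
  have hre : (fun x => (f x).re) =ᵐ[μ] 0 := by
    refine real_zero hf.re (fun ξ => ?_)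
    have h1 : ∀ x, (((f x).re : ℝ) : ℂ) * ex (ξ * x) =
        (1 / 2 : ℂ) * (f x * ex (ξ * x) + conj (f x) * ex (ξ * x)) := by
      intro x
      rw [Complex.re_eq_add_conj]
      ring
    simp only [h1]
    rw [integral_const_mul, integral_add (hb f hf ξ) (hb _ hc ξ), h, h']
    simp
  have him : (fun x => (f x).im) =ᵐ[μ] 0 := by
    refine real_zero hf.im (fun ξ => ?_)
    have h1 : ∀ x, (((f x).im : ℝ) : ℂ) * ex (ξ * x) =
        (1 / (2 * Complex.I) : ℂ) * (f x * ex (ξ * x) - conj (f x) * ex (ξ * x)) := by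
      intro x
      rw [Complex.im_eq_sub_conj]
      ring
    simp only [h1]
    rw [integral_const_mul, integral_sub (hb f hf ξ) (hb _ hc ξ), h, h']
    simp
  filter_upwards [hre, him] with x h1 h2
  exact Complex.ext h1 h2

end Unique

/-- The exponentials with frequencies in `Λ` are an orthonormal basis of `L²(μ)`. -/
def IsSpectrum (μ : Measure ℝ) (Λ : Set ℝ) : Prop :=
  (∀ l ∈ Λ, ∀ l' ∈ Λ, l ≠ l' → ∫ x, ex (l * x) * conj (ex (l' * x)) ∂μ = 0) ∧
  ∀ f : ℝ → ℂ, MemLp f 2 μ → (∀ l ∈ Λ, ∫ x, f x * conj (ex (l * x)) ∂μ = 0) → f =ᵐ[μ] 0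

theorem isSpectrum_of (μ : Measure ℝ) [IsProbabilityMeasure μ] (Λ : Set ℝ)
    (horth : ∀ l ∈ Λ, ∀ l' ∈ Λ, l ≠ l' → F μ (l - l') = 0)
    (hpars : ∀ ξ : ℝ, ∀ ε > 0, ∃ s : Finset ℝ, (∀ l ∈ s, l ∈ Λ) ∧
      1 - ε ≤ ∑ l ∈ s, ‖F μ (ξ - l)‖ ^ 2) : IsSpectrum μ Λ := by
  have hmul : ∀ a b x : ℝ, ex (a * x) * conj (ex (b * x)) = ex ((a - b) * x) := by
    intro a b x
    rw [sub_mul, ex_sub]
  refine ⟨fun l hl l' hl' hne => ?_, fun f hf h0 => ?_⟩
  · simp only [hmul]
    exact horth l hl l' hl' hne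
  · have hfi : Integrable f μ := hf.integrable (by norm_num)
    have hmem : ∀ ξ : ℝ, MemLp (fun x => ex (ξ * x)) 2 μ := by
      intro ξ
      refine MemLp.of_bound
        ((continuous_ex.comp (continuous_const.mul continuous_id)).aestronglyMeasurable) 1 ?_
      exact Eventually.of_forall (fun x => by simp [norm_ex])
    let w : ℝ → Lp ℂ 2 μ := fun ξ => (hmem ξ).toLp _
    have hw : ∀ a b : ℝ, inner ℂ (w a) (w b) = F μ (b - a) := by
      intro a b
      rw [L2.inner_def]
      unfold F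
      refine integral_congr_ae ?_
      filter_upwards [(hmem a).coeFn_toLp, (hmem b).coeFn_toLp] with x h1 h2
      rw [h1, h2]
      rw [RCLike.inner_apply]
      rw [hmul b a x]
    have hwf : ∀ a : ℝ, inner ℂ (w a) (hf.toLp f) = ∫ x, f x * conj (ex (a * x)) ∂μ := by
      intro a
      rw [L2.inner_def]
      refine integral_congr_ae ?_
      filter_upwards [(hmem a).coeFn_toLp, hf.coeFn_toLp] with x h1 h2
      rw [h1, h2, RCLike.inner_apply]
    let v : Λ → Lp ℂ 2 μ := fun l => w l.1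
    have hv : Orthonormal ℂ v := by
      rw [orthonormal_iff_ite]
      intro i j
      rw [hw]
      split_ifs with h
      · rw [h, sub_self, F_zero]
      · exact horth _ j.2 _ i.2 (fun hc => h (Subtype.ext hc.symm))
    refine complex_zero hfi (fun ξ => ?_)
    have h1 : inner ℂ (w (-ξ)) (hf.toLp f) = 0 := by
      refine inner_eq_zero_of_parseval hv (w (-ξ)) ?_ _ ?_
      · intro ε hε
        obtain ⟨s, hs, hle⟩ := hpars (-ξ) ε hε
        classical
        refine ⟨s.attach.image (fun l => (⟨l.1, hs l.1 l.2⟩ : Λ)), ?_⟩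
        rw [Finset.sum_image]
        · have h2 : ‖w (-ξ)‖ ^ 2 = 1 := by
            have := hw (-ξ) (-ξ)
            rw [sub_self, F_zero, inner_self_eq_norm_sq_to_K] at this
            have h7 : ((‖w (-ξ)‖ ^ 2 : ℝ) : ℂ) = ((1 : ℝ) : ℂ) := by
              rw [Complex.ofReal_pow, Complex.ofReal_one]
              exact this
            exact Complex.ofReal_injective h7
          rw [h2]
          refine hle.trans (le_of_eq ?_)
          rw [← Finset.sum_attach]
          refine Finset.sum_congr rfl (fun l _ => ?_)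
          rw [hw]
        · intro a _ b _ hab
          exact Subtype.ext (congrArg (fun z : Λ => z.1) hab)
      · intro i
        rw [hwf]
        exact h0 i.1 i.2
    rw [hwf] at h1
    rw [← h1]
    congr 1
    ext x
    rw [conj_ex]
    congr 2
    ring

end Pool.Agent.X212.Spec
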