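import Pool.Agent.X212.Spec.Example

/-!
# No Hadamard triple for `R = 12`, `B = {0, 1, 8, 9}`; transport to `Fin 1 → ℝ`
-/

set_option autoImplicit false
set_option linter.unusedSectionVars false

open MeasureTheory Set Filter Topology Complex Matrix
open scoped ENNReal Real ComplexConjugate InnerProductSpace

namespace Pool.Agent.X212.Spec

theorem ex_eq_one {x : ℝ} (h : ex x = 1) : ∃ n : ℤ, x = n := by
  unfold ex at h
  rw [Complex.exp_eq_one_iff] at h
  obtain ⟨n, hn⟩ := h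
  refine ⟨n, ?_⟩
  have hπ : (2 * (π : ℂ) * Complex.I) ≠ 0 := by
    simp [Real.pi_ne_zero]
  have h1 : (2 * (π : ℂ) * Complex.I) * (x : ℂ) = (2 * (π : ℂ) * Complex.I) * ((n : ℝ) : ℂ) := by
    rw [hn]
    push_cast
    ring
  have h2 := mul_left_cancel₀ hπ h1
  exact_mod_cast h2

theorem one_add_ex_eq_zero {x : ℝ} (h : 1 + ex x = 0) : ∃ n : ℤ, x + 1 / 2 = n := by
  apply ex_eq_one
  rw [ex_add, ex_half]
  linear_combination -h

/-- the key arithmetic fact -/
theorem mask_zero {d : ℤ} (h : 1 + ex ((d : ℝ) / 12) + ex (8 * ((d : ℝ) / 12)) +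
    ex (9 * ((d : ℝ) / 12)) = 0) : ∃ n : ℤ, d = 12 * n + 6 := by
  have h1 : (1 + ex ((d : ℝ) / 12)) * (1 + ex (8 * ((d : ℝ) / 12))) = 0 := by
    rw [← h, show 9 * ((d : ℝ) / 12) = (d : ℝ) / 12 + 8 * ((d : ℝ) / 12) by ring, ex_add]
    ring
  rcases mul_eq_zero.1 h1 with h2 | h2
  · obtain ⟨n, hn⟩ := one_add_ex_eq_zero h2
    have h3 : ((d + 6 : ℤ) : ℝ) = ((12 * n : ℤ) : ℝ) := by
      push_cast
      linarith
    have h4 : d + 6 = 12 * n := by exact_mod_cast h3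
    exact ⟨n - 1, by omega⟩
  · exfalso
    obtain ⟨n, hn⟩ := one_add_ex_eq_zero h2
    have h3 : ((4 * d + 3 : ℤ) : ℝ) = ((6 * n : ℤ) : ℝ) := by
      push_cast
      linarith
    have h4 : 4 * d + 3 = 6 * n := by exact_mod_cast h3
    omega

theorem no_hadamard {α : Type*} (L : Finset α) (g : α → ℤ) (hL : 3 ≤ L.card)
    (h : ∀ l ∈ L, ∀ l' ∈ L, l ≠ l' → 1 + ex (((g l - g l' : ℤ) : ℝ) / 12) +
      ex (8 * (((g l - g l' : ℤ) : ℝ) / 12)) + ex (9 * (((g l - g l' : ℤ) : ℝ) / 12)) = 0) :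
    False := by
  obtain ⟨a, b, c, ha, hb, hc, hab, hac, hbc⟩ := Finset.two_lt_card_iff.1 (by omega : 2 < L.card)
  obtain ⟨n1, h1⟩ := mask_zero (h a ha b hb hab)
  obtain ⟨n2, h2⟩ := mask_zero (h b hb c hc hbc)
  obtain ⟨n3, h3⟩ := mask_zero (h a ha c hc hac)
  omega

theorem mu_eq : mu = (4 : ENNReal)⁻¹ • ∑ j : Fin 4, mu.map (fun x => 1 / 12 * (x + bB j)) := by
  have h := selfSim_eq (r := 1 / 12) (by norm_num) (by norm_num) bB
  rw [Fintype.card_fin] at h
  exact_mod_cast h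

/-- the embedding of the line in `Fin 1 → ℝ` -/
def emb (x : ℝ) : Fin 1 → ℝ := fun _ => x

theorem measurable_emb : Measurable emb := measurable_pi_lambda _ (fun _ => measurable_id)

/-- the measurable equivalence -/
def embE : ℝ ≃ᵐ (Fin 1 → ℝ) := (MeasurableEquiv.funUnique (Fin 1) ℝ).symm

theorem embE_apply (x : ℝ) : embE x = emb x := rfl

/-- the measure on `Fin 1 → ℝ` -/
noncomputable def mu1 : Measure (Fin 1 → ℝ) := mu.map embE

instance : IsProbabilityMeasure mu1 := Measure.isProbabilityMeasure_map embE.measurable.aemeasurable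

end Pool.Agent.X212.Spec
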