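import Pool.Agent.X212.Spec.Transport

/-!
# The attractor of `x ↦ (x + b)/12`, `b ∈ {0, 1, 8, 9}`
-/

set_option autoImplicit false
set_option linter.unusedSectionVars false

open MeasureTheory Set Filter Topology Complex Matrix
open scoped ENNReal Real ComplexConjugate InnerProductSpace

namespace Pool.Agent.X212.Spec

theorem continuous_X {r : ℝ} (h0 : 0 ≤ r) (h1 : r < 1) (b : Fin 4 → ℝ) :
    Continuous (X r b) := by
  obtain ⟨M, hM, hb⟩ := exists_bound b
  unfold X
  refine continuous_tsum (u := fun k : ℕ => r ^ k * (r * M)) ?_ ?_ ?_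
  · intro k
    exact continuous_const.mul (continuous_of_discreteTopology.comp (continuous_apply k))
  · exact (summable_geometric_of_lt_one h0 h1).mul_right _
  · intro k ω
    rw [Real.norm_eq_abs, abs_mul, abs_of_nonneg (pow_nonneg h0 _), pow_succ, mul_assoc]
    exact mul_le_mul_of_nonneg_left (mul_le_mul_of_nonneg_left (hb _) h0) (pow_nonneg h0 _)

/-- the attractor -/
noncomputable def att : Set ℝ := Set.range (X (1 / 12) bB)

theorem att_compact : IsCompact att := isCompact_range (continuous_X (by norm_num) (by norm_num) bB)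

theorem att_nonempty : att.Nonempty := Set.range_nonempty _

theorem att_eq : att = ⋃ j : Fin 4, (fun x => 1 / 12 * (x + bB j)) '' att := by
  ext x
  simp only [Set.mem_iUnion, Set.mem_image]
  constructor
  · rintro ⟨ω, rfl⟩
    refine ⟨ω 0, X (1 / 12) bB (fun n => ω (n + 1)), ⟨_, rfl⟩, ?_⟩
    rw [← X_cons (by norm_num) (by norm_num) bB (ω 0)]
    congr 1
    ext n
    cases n <;> rfl
  · rintro ⟨j, _, ⟨ω, rfl⟩, rfl⟩
    exact ⟨cons j ω, X_cons (by norm_num) (by norm_num) bB j ω⟩

end Pool.Agent.X212.Spec
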