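import Mathlib

/-!
# Existence of self-similar measures on the line

For `0 < r < 1`, digits `b : ι → ℝ` (`ι` finite and nonempty) there is a probability measure `μ` on
`ℝ` with `μ = (1/#ι) ∑ μ ∘ φ_j⁻¹`, `φ_j x = r * (x + b j)`.
-/

set_option autoImplicit false
set_option linter.unusedSectionVars false

open MeasureTheory Set Filter Topology
open scoped ENNReal

namespace Pool.Agent.X212.Spec

section Exist

variable {ι : Type} [Fintype ι] [Nonempty ι] [MeasurableSpace ι] [MeasurableSingletonClass ι]

/-- the uniform measure on `ι` -/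
noncomputable def U (ι : Type) [Fintype ι] [MeasurableSpace ι] : Measure ι :=
  ((Fintype.card ι : ENNReal)⁻¹) • Measure.count

instance : IsProbabilityMeasure (U ι) := by
  refine ⟨?_⟩
  have h : (Fintype.card ι : ENNReal) ≠ 0 := by
    simp [Fintype.card_ne_zero]
  simp only [U, Measure.smul_apply, smul_eq_mul]
  rw [Measure.count_univ]
  simp only [ENat.card_eq_coe_fintype_card]
  exact ENNReal.inv_mul_cancel h (by simp)

/-- the product measure -/
noncomputable def P (ι : Type) [Fintype ι] [Nonempty ι] [MeasurableSpace ι]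
    [MeasurableSingletonClass ι] : Measure (ℕ → ι) := Measure.infinitePi (fun _ => U ι)

instance : IsProbabilityMeasure (P ι) := by unfold P; infer_instance

/-- put `j` in front of the sequence `ω` -/
def cons (j : ι) (ω : ℕ → ι) : ℕ → ι := fun n => Nat.casesOn n j ω

@[simp] theorem cons_zero (j : ι) (ω : ℕ → ι) : cons j ω 0 = j := rfl

@[simp] theorem cons_succ (j : ι) (ω : ℕ → ι) (n : ℕ) : cons j ω (n + 1) = ω n := rfl

omit [Fintype ι] [Nonempty ι] [MeasurableSingletonClass ι] in
theorem measurable_cons (j : ι) : Measurable (cons j) := by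
  refine measurable_pi_lambda _ (fun n => ?_)
  cases n with
  | zero => exact measurable_const
  | succ n => exact measurable_pi_apply n

theorem U_apply (s : Set ι) : U ι s = (Fintype.card ι : ENNReal)⁻¹ * ∑ j : ι, s.indicator 1 j := by
  classical
  have : MeasurableSet s := s.toFinite.measurableSet
  simp only [U, Measure.smul_apply, smul_eq_mul]
  rw [Measure.count, Measure.sum_apply _ this, tsum_fintype]
  simp only [Measure.dirac_apply' _ this]

theorem P_eq : P ι = (Fintype.card ι : ENNReal)⁻¹ • ∑ j : ι, (P ι).map (cons j) := by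
  classical
  symm
  refine Measure.eq_infinitePi _ ?_
  intro s t ht
  have hm : MeasurableSet (Set.pi (s : Set ℕ) t) :=
    MeasurableSet.pi s.countable_toSet (fun i _ => ht i)
  rw [Measure.smul_apply, Measure.finsetSum_apply, smul_eq_mul]
  have h1 : ∀ j : ι, (P ι).map (cons j) (Set.pi (s : Set ℕ) t) =
      (if 0 ∈ s then (t 0).indicator 1 j else 1) *
        ∏ i ∈ s.preimage Nat.succ Nat.succ_injective.injOn, U ι (t (i + 1)) := by
    intro j
    rw [Measure.map_apply (measurable_cons j) hm]
    have h2 : cons j ⁻¹' (Set.pi (s : Set ℕ) t) =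
        if 0 ∈ s ∧ j ∉ t 0 then ∅ else
          Set.pi ((s.preimage Nat.succ Nat.succ_injective.injOn : Finset ℕ) : Set ℕ)
            (fun i => t (i + 1)) := by
      ext ω
      split_ifs with h
      · simp only [Set.mem_preimage, Set.mem_pi, Set.mem_empty_iff_false, iff_false, not_forall]
        exact ⟨0, h.1, h.2⟩
      · simp only [Set.mem_preimage, Set.mem_pi, Finset.coe_preimage, Finset.mem_coe]
        constructor
        · intro h3 i hi
          exact h3 (i + 1) hi
        · intro h3 i hi
          cases i with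
          | zero =>
            by_contra hc
            exact h ⟨hi, hc⟩
          | succ i => exact h3 i hi
    rw [h2]
    by_cases h0 : 0 ∈ s
    · by_cases hj : j ∈ t 0
      · rw [if_neg (by tauto), if_pos h0, Set.indicator_of_mem hj, Pi.one_apply, one_mul]
        exact Measure.infinitePi_pi _ (fun i _ => ht _)
      · rw [if_pos ⟨h0, hj⟩, if_pos h0, Set.indicator_of_notMem hj, zero_mul, measure_empty]
    · rw [if_neg (by tauto), if_neg h0, one_mul]
      exact Measure.infinitePi_pi _ (fun i _ => ht _)
  simp only [h1]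
  rw [← Finset.sum_mul, ← mul_assoc]
  have h4 : ∏ i ∈ s, U ι (t i) = (if 0 ∈ s then U ι (t 0) else 1) *
      ∏ i ∈ s.preimage Nat.succ Nat.succ_injective.injOn, U ι (t (i + 1)) := by
    have h5 : s.filter (fun i => i ≠ 0) =
        (s.preimage Nat.succ Nat.succ_injective.injOn).image Nat.succ := by
      ext i
      simp only [Finset.mem_filter, Finset.mem_image, Finset.mem_preimage]
      constructor
      · rintro ⟨h6, h7⟩
        obtain ⟨k, rfl⟩ := Nat.exists_eq_succ_of_ne_zero h7
        exact ⟨k, h6, rfl⟩
      · rintro ⟨k, hk, rfl⟩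
        exact ⟨hk, Nat.succ_ne_zero k⟩
    rw [← Finset.prod_filter_mul_prod_filter_not s (fun i => i = 0)]
    congr 1
    · by_cases h0 : 0 ∈ s
      · rw [if_pos h0]
        have : s.filter (fun i => i = 0) = {0} := by
          ext i
          simp only [Finset.mem_filter, Finset.mem_singleton]
          constructor
          · exact fun h => h.2
          · rintro rfl; exact ⟨h0, rfl⟩
        rw [this, Finset.prod_singleton]
      · rw [if_neg h0]
        have : s.filter (fun i => i = 0) = ∅ := by
          ext i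
          simp only [Finset.mem_filter, Finset.notMem_empty, iff_false, not_and]
          rintro hi rfl
          exact h0 hi
        rw [this, Finset.prod_empty]
    · show ∏ i ∈ s.filter (fun i => i ≠ 0), U ι (t i) = _
      rw [h5, Finset.prod_image (Nat.succ_injective.injOn)]
  rw [h4]
  congr 1
  split_ifs with h0
  · rw [U_apply]
  · have h : (Fintype.card ι : ENNReal) ≠ 0 := by simp [Fintype.card_ne_zero]
    simp only [Finset.sum_const, Finset.card_univ, nsmul_eq_mul, mul_one]
    exact ENNReal.inv_mul_cancel h (by simp)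

/-- the random series `∑ r^(k+1) b (ω k)` -/
noncomputable def X (r : ℝ) (b : ι → ℝ) (ω : ℕ → ι) : ℝ := ∑' k, r ^ (k + 1) * b (ω k)

theorem exists_bound (b : ι → ℝ) : ∃ M, 0 ≤ M ∧ ∀ j, |b j| ≤ M := by
  refine ⟨∑ j, |b j|, Finset.sum_nonneg (fun j _ => abs_nonneg _), fun j => ?_⟩
  exact Finset.single_le_sum (f := fun j => |b j|) (fun j _ => abs_nonneg _) (Finset.mem_univ j)

theorem summable_X {r : ℝ} (h0 : 0 ≤ r) (h1 : r < 1) (b : ι → ℝ) (ω : ℕ → ι) :
    Summable (fun k => r ^ (k + 1) * b (ω k)) := by
  obtain ⟨M, hM, hb⟩ := exists_bound b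
  have h2 : Summable (fun k : ℕ => r ^ k * (r * M)) :=
    (summable_geometric_of_lt_one h0 h1).mul_right _
  refine Summable.of_norm_bounded h2 (fun k => ?_)
  rw [Real.norm_eq_abs, abs_mul, abs_of_nonneg (pow_nonneg h0 _), pow_succ, mul_assoc]
  exact mul_le_mul_of_nonneg_left (mul_le_mul_of_nonneg_left (hb _) h0) (pow_nonneg h0 _)

theorem X_cons {r : ℝ} (h0 : 0 ≤ r) (h1 : r < 1) (b : ι → ℝ) (j : ι) (ω : ℕ → ι) :
    X r b (cons j ω) = r * (X r b ω + b j) := by
  unfold X
  rw [(summable_X h0 h1 b (cons j ω)).tsum_eq_zero_add]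
  simp only [cons_zero, cons_succ]
  rw [mul_add, ← tsum_mul_left, add_comm]
  congr 1
  · congr 1
    ext k
    ring
  · ring

theorem measurable_X {r : ℝ} (h0 : 0 ≤ r) (h1 : r < 1) (b : ι → ℝ) : Measurable (X r b) := by
  have h2 : ∀ n : ℕ, Measurable (fun ω : ℕ → ι => ∑ k ∈ Finset.range n, r ^ (k + 1) * b (ω k)) := by
    intro n
    refine Finset.measurable_sum _ (fun k _ => ?_)
    exact measurable_const.mul ((measurable_of_finite b).comp (measurable_pi_apply k))
  refine measurable_of_tendsto_metrizable h2 ?_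
  rw [tendsto_pi_nhds]
  intro ω
  exact (summable_X h0 h1 b ω).hasSum.tendsto_sum_nat

/-- the self-similar measure -/
noncomputable def selfSim (r : ℝ) (b : ι → ℝ) : Measure ℝ := (P ι).map (X r b)

theorem selfSim_prob {r : ℝ} (h0 : 0 ≤ r) (h1 : r < 1) (b : ι → ℝ) :
    IsProbabilityMeasure (selfSim r b) :=
  Measure.isProbabilityMeasure_map (measurable_X h0 h1 b).aemeasurable

theorem selfSim_eq {r : ℝ} (h0 : 0 ≤ r) (h1 : r < 1) (b : ι → ℝ) :
    selfSim r b = (Fintype.card ι : ENNReal)⁻¹ •
      ∑ j : ι, (selfSim r b).map (fun x => r * (x + b j)) := by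
  have hX := measurable_X h0 h1 b
  conv_lhs => rw [selfSim, P_eq]
  have hsum : ∀ (s : Finset ι) (μ : ι → Measure (ℕ → ι)),
      (∑ j ∈ s, μ j).map (X r b) = ∑ j ∈ s, (μ j).map (X r b) := by
    classical
    intro s μ
    induction s using Finset.induction_on with
    | empty => simp
    | insert a s ha ih => rw [Finset.sum_insert ha, Finset.sum_insert ha, Measure.map_add _ _ hX, ih]
  rw [Measure.map_smul, hsum]
  congr 1
  refine Finset.sum_congr rfl (fun j _ => ?_)
  rw [selfSim, Measure.map_map (by fun_prop) hX, Measure.map_map hX (measurable_cons j)]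
  congr 1
  ext ω
  exact X_cons h0 h1 b j ω

end Exist

end Pool.Agent.X212.Spec
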