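import Pool.Agent.X212.Spec.Hadamard
import Pool.Agent.X212.Spec.Exist

/-!
# The self-similar measure with `R = 12`, `B = {0, 1, 8, 9}` is spectral
-/

set_option autoImplicit false
set_option linter.unusedSectionVars false

open MeasureTheory Set Filter Topology Complex
open scoped ENNReal Real ComplexConjugate InnerProductSpace

namespace Pool.Agent.X212.Spec

theorem ex_half : ex (1 / 2) = -1 := by
  unfold ex
  rw [show (2 * π * Complex.I * ((1 / 2 : ℝ) : ℂ)) = π * Complex.I by push_cast; ring]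
  exact Complex.exp_pi_mul_I

theorem ex_quarter : ex (1 / 4) = Complex.I := by
  unfold ex
  rw [show (2 * π * Complex.I * ((1 / 4 : ℝ) : ℂ)) = π / 2 * Complex.I by push_cast; ring]
  exact Complex.exp_pi_div_two_mul_I

theorem norm_sq_one_add_add (u : ℂ) (hu : ‖u‖ = 1) : ‖1 + u‖ ^ 2 + ‖1 - u‖ ^ 2 = 4 := by
  have h := parallelogram_law_with_norm ℝ (1 : ℂ) u
  rw [hu, norm_one] at h
  nlinarith

/-- The Fourier transform of the self-similar measure. -/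
theorem F_selfSim {ι : Type} [Fintype ι] [Nonempty ι] [MeasurableSpace ι]
    [MeasurableSingletonClass ι] {μ : Measure ℝ} [IsProbabilityMeasure μ] {r : ℝ} {b : ι → ℝ}
    (hμ : μ = (Fintype.card ι : ENNReal)⁻¹ • ∑ j : ι, μ.map (fun x => r * (x + b j))) (ξ : ℝ) :
    F μ ξ = ((Fintype.card ι : ℂ)⁻¹ * ∑ j : ι, ex (ξ * r * b j)) * F μ (ξ * r) := by
  have h1 : ∀ j : ι, IsFiniteMeasure (μ.map (fun x => r * (x + b j))) := by
    intro j
    have : IsProbabilityMeasure (μ.map (fun x => r * (x + b j))) :=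
      Measure.isProbabilityMeasure_map (by fun_prop)
    infer_instance
  conv_lhs => rw [hμ]
  rw [F_smul, F_sum]
  simp only [F_map]
  rw [← Finset.sum_mul, mul_assoc]
  congr 1
  simp

/-- uniqueness of the solution of the functional equation -/
theorem unique_of_eq {G₁ G₂ h : ℝ → ℂ} {r : ℝ} (hr0 : 0 ≤ r) (hr : r < 1)
    (h₁ : Tendsto G₁ (𝓝 0) (𝓝 1)) (h₂ : Tendsto G₂ (𝓝 0) (𝓝 1)) (hh : ∀ ξ, ‖h ξ‖ ≤ 1)
    (e₁ : ∀ ξ, G₁ ξ = h ξ * G₁ (ξ * r)) (e₂ : ∀ ξ, G₂ ξ = h ξ * G₂ (ξ * r)) (ξ : ℝ) :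
    G₁ ξ = G₂ ξ := by
  have h3 : ∀ n : ℕ, ∀ ξ, ‖G₁ ξ - G₂ ξ‖ ≤ ‖G₁ (ξ * r ^ n) - G₂ (ξ * r ^ n)‖ := by
    intro n
    induction n with
    | zero => intro ξ; simp
    | succ n ih =>
      intro ξ
      rw [e₁ ξ, e₂ ξ, ← mul_sub, norm_mul]
      calc ‖h ξ‖ * ‖G₁ (ξ * r) - G₂ (ξ * r)‖ ≤ 1 * ‖G₁ (ξ * r) - G₂ (ξ * r)‖ :=
            mul_le_mul_of_nonneg_right (hh ξ) (norm_nonneg _)
        _ ≤ ‖G₁ (ξ * r * r ^ n) - G₂ (ξ * r * r ^ n)‖ := by rw [one_mul]; exact ih _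
        _ = _ := by rw [pow_succ, mul_assoc, mul_comm r]
  have h4 : Tendsto (fun n : ℕ => ξ * r ^ n) atTop (𝓝 0) := by
    have := (tendsto_pow_atTop_nhds_zero_of_lt_one hr0 hr).const_mul ξ
    rwa [mul_zero] at this
  have h5 : Tendsto (fun n : ℕ => ‖G₁ (ξ * r ^ n) - G₂ (ξ * r ^ n)‖) atTop (𝓝 0) := by
    have := ((h₁.comp h4).sub (h₂.comp h4)).norm
    simpa using this
  have h6 : ‖G₁ ξ - G₂ ξ‖ ≤ 0 := ge_of_tendsto' h5 (fun n => h3 n ξ)
  exact sub_eq_zero.1 (norm_le_zero_iff.1 h6)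

/-! ### the measure `ν` with digits `{0, 2, 3, 5}` -/

/-- the mask -/
noncomputable def mD (ξ : ℝ) : ℂ := (1 / 4) * ((1 + ex (2 * ξ)) * (1 + ex (3 * ξ)))

/-- the digits `0, 2, 3, 5` -/
noncomputable def bD : Fin 4 → ℝ := ![0, 2, 3, 5]

/-- the digits `0, 1, 8, 9` -/
noncomputable def bB : Fin 4 → ℝ := ![0, 1, 8, 9]

noncomputable def nu : Measure ℝ := selfSim (1 / 12) bD

noncomputable def mu : Measure ℝ := selfSim (1 / 12) bB

instance : IsProbabilityMeasure nu := selfSim_prob (by norm_num) (by norm_num) bD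

instance : IsProbabilityMeasure mu := selfSim_prob (by norm_num) (by norm_num) bB

theorem F_nu (ξ : ℝ) : F nu ξ = mD (ξ / 12) * F nu (ξ / 12) := by
  have h := F_selfSim (μ := nu) (r := 1 / 12) (b := bD)
    (selfSim_eq (by norm_num) (by norm_num) bD) ξ
  rw [show ξ * (1 / 12) = ξ / 12 by ring] at h
  rw [h]
  congr 1
  simp only [Fin.sum_univ_four, bD, mD, Fintype.card_fin]
  have e1 : ex (ξ / 12 * ![(0 : ℝ), 2, 3, 5] 3) = ex (2 * (ξ / 12)) * ex (3 * (ξ / 12)) := by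
    rw [← ex_add]
    congr 1
    show ξ / 12 * 5 = _
    ring
  have e2 : ex (ξ / 12 * ![(0 : ℝ), 2, 3, 5] 0) = 1 := by
    show ex (ξ / 12 * 0) = 1
    rw [mul_zero, ex_zero]
  have e3 : ex (ξ / 12 * ![(0 : ℝ), 2, 3, 5] 1) = ex (2 * (ξ / 12)) := by
    congr 1
    show ξ / 12 * 2 = _
    ring
  have e4 : ex (ξ / 12 * ![(0 : ℝ), 2, 3, 5] 2) = ex (3 * (ξ / 12)) := by
    congr 1
    show ξ / 12 * 3 = _
    ring
  rw [e1, e2, e3, e4]
  push_cast
  ring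

theorem F_mu_eq (ξ : ℝ) : F mu ξ =
    (1 / 4) * ((1 + ex (ξ / 12)) * (1 + ex (8 * (ξ / 12)))) * F mu (ξ / 12) := by
  have h := F_selfSim (μ := mu) (r := 1 / 12) (b := bB)
    (selfSim_eq (by norm_num) (by norm_num) bB) ξ
  rw [show ξ * (1 / 12) = ξ / 12 by ring] at h
  rw [h]
  congr 1
  simp only [Fin.sum_univ_four, bB, Fintype.card_fin]
  have e1 : ex (ξ / 12 * ![(0 : ℝ), 1, 8, 9] 3) = ex (ξ / 12) * ex (8 * (ξ / 12)) := by
    rw [← ex_add]
    congr 1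
    show ξ / 12 * 9 = _
    ring
  have e2 : ex (ξ / 12 * ![(0 : ℝ), 1, 8, 9] 0) = 1 := by
    show ex (ξ / 12 * 0) = 1
    rw [mul_zero, ex_zero]
  have e3 : ex (ξ / 12 * ![(0 : ℝ), 1, 8, 9] 1) = ex (ξ / 12) := by
    congr 1
    show ξ / 12 * 1 = _
    ring
  have e4 : ex (ξ / 12 * ![(0 : ℝ), 1, 8, 9] 2) = ex (8 * (ξ / 12)) := by
    congr 1
    show ξ / 12 * 8 = _
    ring
  rw [e1, e2, e3, e4]
  push_cast
  ring

theorem F_mu_nu (ξ : ℝ) : F mu ξ = (1 + ex (2 * ξ / 3)) / 2 * F nu (ξ / 3) := by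
  refine unique_of_eq (r := 1 / 12) (by norm_num) (by norm_num)
    (G₁ := F mu) (G₂ := fun ξ => (1 + ex (2 * ξ / 3)) / 2 * F nu (ξ / 3))
    (h := fun ξ => (1 / 4) * ((1 + ex (ξ / 12)) * (1 + ex (8 * (ξ / 12))))) ?_ ?_ ?_ ?_ ?_ ξ
  · have := (continuous_F mu).tendsto 0
    rwa [F_zero] at this
  · have h1 : Continuous (fun ξ : ℝ => (1 + ex (2 * ξ / 3)) / 2 * F nu (ξ / 3)) := by
      refine Continuous.mul ?_ ((continuous_F nu).comp (by fun_prop))
      have : Continuous (fun ξ : ℝ => ex (2 * ξ / 3)) := continuous_ex.comp (by fun_prop)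
      fun_prop
    have := h1.tendsto 0
    simp only [mul_zero, zero_div, ex_zero, F_zero, mul_one] at this
    norm_num at this
    exact this
  · intro ξ
    rw [norm_mul, norm_mul]
    have h1 : ‖1 + ex (ξ / 12)‖ ≤ 2 := by
      refine (norm_add_le _ _).trans ?_
      rw [norm_ex, norm_one]
      norm_num
    have h2 : ‖1 + ex (8 * (ξ / 12))‖ ≤ 2 := by
      refine (norm_add_le _ _).trans ?_
      rw [norm_ex, norm_one]
      norm_num
    have h3 : ‖(1 / 4 : ℂ)‖ = 1 / 4 := by norm_num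
    rw [h3]
    nlinarith [norm_nonneg (1 + ex (ξ / 12)), norm_nonneg (1 + ex (8 * (ξ / 12)))]
  · intro ξ
    rw [F_mu_eq ξ]
    congr 2
    ring
  · intro ξ
    rw [F_nu (ξ / 3)]
    unfold mD
    have e1 : 2 * (ξ / 3 / 12) = 2 * (ξ * (1 / 12)) / 3 := by ring
    have e2 : 3 * (ξ / 3 / 12) = ξ / 12 := by ring
    have e3 : 8 * (ξ / 12) = 2 * ξ / 3 := by ring
    have e4 : ξ * (1 / 12) / 3 = ξ / 3 / 12 := by ring
    rw [e1, e2, e3, e4]
    ring

theorem nu_data : Data 12 {0, 3, 6, 9} mD nu where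
  hR := by norm_num
  zero := by simp
  nonneg := by
    intro l hl
    simp only [Finset.mem_insert, Finset.mem_singleton] at hl
    omega
  lt := by
    intro l hl
    simp only [Finset.mem_insert, Finset.mem_singleton] at hl
    omega
  per := by
    intro ξ n
    unfold mD
    have e1 : ex (2 * (ξ + n)) = ex (2 * ξ) := by
      have := ex_add_int (2 * ξ) (2 * n)
      rw [← this]
      congr 1
      push_cast
      ring
    have e2 : ex (3 * (ξ + n)) = ex (3 * ξ) := by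
      have := ex_add_int (3 * ξ) (3 * n)
      rw [← this]
      congr 1
      push_cast
      ring
    rw [e1, e2]
  m0 := by
    unfold mD
    simp
    norm_num
  sum := by
    intro ξ
    have hne : ∀ a b : ℤ, ex (2 * (ξ - (a : ℝ) / (12 : ℤ))) = ex (2 * ξ) * ex (-(a : ℝ) / 6) := by
      intro a b
      rw [← ex_add]
      congr 1
      push_cast
      ring
    rw [Finset.sum_insert (by simp), Finset.sum_insert (by simp), Finset.sum_insert (by simp),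
      Finset.sum_singleton]
    set u := ex (2 * ξ) with hu
    set v := ex (3 * ξ) with hv
    have hun : ‖u‖ = 1 := norm_ex _
    have hvn : ‖v‖ = 1 := norm_ex _
    have a0 : mD (ξ - ((0 : ℤ) : ℝ) / ((12 : ℤ) : ℝ)) = (1 / 4) * ((1 + u) * (1 + v)) := by
      unfold mD
      simp [hu, hv]
    have a1 : mD (ξ - ((3 : ℤ) : ℝ) / ((12 : ℤ) : ℝ)) =
        (1 / 4) * ((1 - u) * (1 + Complex.I * v)) := by
      unfold mD
      have e1 : ex (2 * (ξ - ((3 : ℤ) : ℝ) / ((12 : ℤ) : ℝ))) = - u := by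
        have := ex_add_int (2 * (ξ - ((3 : ℤ) : ℝ) / ((12 : ℤ) : ℝ))) 1
        rw [← this, show 2 * (ξ - ((3 : ℤ) : ℝ) / ((12 : ℤ) : ℝ)) + ((1 : ℤ) : ℝ) =
          2 * ξ + 1 / 2 by push_cast; ring, ex_add, ex_half]
        ring
      have e2 : ex (3 * (ξ - ((3 : ℤ) : ℝ) / ((12 : ℤ) : ℝ))) = Complex.I * v := by
        have := ex_add_int (3 * (ξ - ((3 : ℤ) : ℝ) / ((12 : ℤ) : ℝ))) 1
        rw [← this, show 3 * (ξ - ((3 : ℤ) : ℝ) / ((12 : ℤ) : ℝ)) + ((1 : ℤ) : ℝ) =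
          3 * ξ + 1 / 4 by push_cast; ring, ex_add, ex_quarter]
        ring
      rw [e1, e2]
      ring
    have a2 : mD (ξ - ((6 : ℤ) : ℝ) / ((12 : ℤ) : ℝ)) = (1 / 4) * ((1 + u) * (1 - v)) := by
      unfold mD
      have e1 : ex (2 * (ξ - ((6 : ℤ) : ℝ) / ((12 : ℤ) : ℝ))) = u := by
        have := ex_add_int (2 * (ξ - ((6 : ℤ) : ℝ) / ((12 : ℤ) : ℝ))) 1
        rw [← this]
        congr 1
        push_cast
        ring
      have e2 : ex (3 * (ξ - ((6 : ℤ) : ℝ) / ((12 : ℤ) : ℝ))) = - v := by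
        have := ex_add_int (3 * (ξ - ((6 : ℤ) : ℝ) / ((12 : ℤ) : ℝ))) 2
        rw [← this, show 3 * (ξ - ((6 : ℤ) : ℝ) / ((12 : ℤ) : ℝ)) + ((2 : ℤ) : ℝ) =
          3 * ξ + 1 / 2 by push_cast; ring, ex_add, ex_half]
        ring
      rw [e1, e2]
      ring
    have a3 : mD (ξ - ((9 : ℤ) : ℝ) / ((12 : ℤ) : ℝ)) =
        (1 / 4) * ((1 - u) * (1 - Complex.I * v)) := by
      unfold mD
      have e1 : ex (2 * (ξ - ((9 : ℤ) : ℝ) / ((12 : ℤ) : ℝ))) = - u := by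
        have := ex_add_int (2 * (ξ - ((9 : ℤ) : ℝ) / ((12 : ℤ) : ℝ))) 2
        rw [← this, show 2 * (ξ - ((9 : ℤ) : ℝ) / ((12 : ℤ) : ℝ)) + ((2 : ℤ) : ℝ) =
          2 * ξ + 1 / 2 by push_cast; ring, ex_add, ex_half]
        ring
      have e2 : ex (3 * (ξ - ((9 : ℤ) : ℝ) / ((12 : ℤ) : ℝ))) = - (Complex.I * v) := by
        have := ex_add_int (3 * (ξ - ((9 : ℤ) : ℝ) / ((12 : ℤ) : ℝ))) 3
        rw [← this, show 3 * (ξ - ((9 : ℤ) : ℝ) / ((12 : ℤ) : ℝ)) + ((3 : ℤ) : ℝ) =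
          3 * ξ + (1 / 2 + 1 / 4) by push_cast; ring, ex_add, ex_add, ex_half, ex_quarter]
        ring
      rw [e1, e2]
      ring
    rw [a0, a1, a2, a3]
    simp only [norm_mul, mul_pow]
    have h4 : ‖(1 / 4 : ℂ)‖ ^ 2 = 1 / 16 := by norm_num
    rw [h4]
    have n1 := norm_sq_one_add_add u hun
    have n2 := norm_sq_one_add_add v hvn
    have n3 := norm_sq_one_add_add (Complex.I * v) (by rw [norm_mul, hvn, Complex.norm_I, one_mul])
    have e1 : 1 / 16 * (‖1 + u‖ ^ 2 * ‖1 + v‖ ^ 2) + (1 / 16 * (‖1 - u‖ ^ 2 *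
        ‖1 + Complex.I * v‖ ^ 2) + (1 / 16 * (‖1 + u‖ ^ 2 * ‖1 - v‖ ^ 2) +
        1 / 16 * (‖1 - u‖ ^ 2 * ‖1 - Complex.I * v‖ ^ 2))) =
        1 / 16 * (‖1 + u‖ ^ 2 * (‖1 + v‖ ^ 2 + ‖1 - v‖ ^ 2) +
          ‖1 - u‖ ^ 2 * (‖1 + Complex.I * v‖ ^ 2 + ‖1 - Complex.I * v‖ ^ 2)) := by ring
    rw [e1, n2, n3]
    linarith
  F := by
    intro ξ
    push_cast
    exact F_nu ξ

theorem ex_re (x : ℝ) : (ex x).re = Real.cos (2 * π * x) := by
  unfold ex
  rw [show (2 * π * Complex.I * (x : ℂ)) = ((2 * π * x : ℝ) : ℂ) * Complex.I by push_cast; ring,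
    Complex.exp_ofReal_mul_I_re]

theorem norm_mD_ge (η : ℝ) (h : |η| ≤ 1 / 8) : (1 - √2 / 2) / 4 ≤ ‖mD η‖ := by
  have hπ := Real.pi_pos
  have h1 : 1 ≤ ‖1 + ex (2 * η)‖ := by
    refine le_trans ?_ (Complex.re_le_norm _)
    rw [Complex.add_re, Complex.one_re, ex_re]
    have : 0 ≤ Real.cos (2 * π * (2 * η)) := by
      apply Real.cos_nonneg_of_mem_Icc
      rw [abs_le] at h
      constructor <;> nlinarith
    linarith
  have h2 : 1 - √2 / 2 ≤ ‖1 + ex (3 * η)‖ := by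
    refine le_trans ?_ (Complex.re_le_norm _)
    rw [Complex.add_re, Complex.one_re, ex_re]
    have h3 : Real.cos (3 * π / 4) ≤ Real.cos |2 * π * (3 * η)| := by
      apply Real.cos_le_cos_of_nonneg_of_le_pi (abs_nonneg _) (by linarith)
      have h8 : |2 * π * (3 * η)| = 6 * π * |η| := by
        rw [show 2 * π * (3 * η) = 6 * π * η by ring, abs_mul, abs_of_pos (by positivity)]
      rw [h8]
      nlinarith
    rw [Real.cos_abs] at h3
    have h4 : Real.cos (3 * π / 4) = - (√2 / 2) := by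
      rw [show 3 * π / 4 = π - π / 4 by ring, Real.cos_pi_sub, Real.cos_pi_div_four]
    linarith
  have hs : 0 ≤ 1 - √2 / 2 := by
    have : √2 ≤ 2 := by
      rw [Real.sqrt_le_left (by norm_num)]
      norm_num
    linarith
  unfold mD
  rw [norm_mul, norm_mul]
  have h3 : ‖(1 / 4 : ℂ)‖ = 1 / 4 := by norm_num
  rw [h3]
  have : (1 - √2 / 2) ≤ ‖1 + ex (2 * η)‖ * ‖1 + ex (3 * η)‖ := by
    calc 1 - √2 / 2 = 1 * (1 - √2 / 2) := (one_mul _).symm
      _ ≤ _ := mul_le_mul h1 h2 hs (norm_nonneg _)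
  linarith

theorem nu_low : ∃ c : ℝ, 0 < c ∧ ∀ ξ : ℝ, |ξ| ≤ 3 / 2 → c ≤ ‖F nu ξ‖ := by
  have h1 : Tendsto (fun ξ => ‖F nu ξ‖) (𝓝 0) (𝓝 1) := by
    have := ((continuous_F nu).tendsto 0).norm
    rwa [F_zero, norm_one] at this
  have h2 : ∀ᶠ ξ in 𝓝 (0 : ℝ), 1 / 2 ≤ ‖F nu ξ‖ := h1.eventually_const_le (by norm_num)
  rw [Metric.eventually_nhds_iff] at h2
  obtain ⟨δ, hδ, h3⟩ := h2
  have hc0 : 0 < (1 - √2 / 2) / 4 := by
    have : √2 < 2 := by
      rw [Real.sqrt_lt' (by norm_num)]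
      norm_num
    linarith
  have h4 : ∀ n : ℕ, ∀ ξ : ℝ, |ξ| ≤ 3 / 2 → |ξ| < δ * 12 ^ n →
      ((1 - √2 / 2) / 4) ^ n * (1 / 2) ≤ ‖F nu ξ‖ := by
    intro n
    induction n with
    | zero =>
      intro ξ _ h
      rw [pow_zero, one_mul]
      apply h3
      rw [Real.dist_eq, sub_zero]
      rw [pow_zero, mul_one] at h
      exact h
    | succ n ih =>
      intro ξ hξ h
      rw [F_nu, norm_mul, pow_succ]
      have h5 : |ξ / 12| = |ξ| / 12 := by rw [abs_div]; norm_num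
      have h6 := norm_mD_ge (ξ / 12) (by rw [h5]; linarith)
      have h7 := ih (ξ / 12) (by rw [h5]; linarith [abs_nonneg ξ]) (by
        rw [h5]
        rw [pow_succ] at h
        linarith)
      calc ((1 - √2 / 2) / 4) ^ n * ((1 - √2 / 2) / 4) * (1 / 2) =
            ((1 - √2 / 2) / 4) * (((1 - √2 / 2) / 4) ^ n * (1 / 2)) := by ring
        _ ≤ _ := mul_le_mul h6 h7 (by positivity) (norm_nonneg _)
  obtain ⟨n, hn⟩ := pow_unbounded_of_one_lt (3 / 2 / δ) (by norm_num : (1 : ℝ) < 12)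
  refine ⟨((1 - √2 / 2) / 4) ^ n * (1 / 2), by positivity, fun ξ hξ => h4 n ξ hξ ?_⟩
  rw [div_lt_iff₀ hδ] at hn
  linarith

/-- the spectrum of `ν` -/
def LamNu : Set ℤ := {l | ∃ n, l ∈ Lam 12 {0, 3, 6, 9} n}

theorem nu_orth {a b : ℤ} (ha : a ∈ LamNu) (hb : b ∈ LamNu) (hne : a ≠ b) :
    F nu ((a : ℝ) - b) = 0 := by
  obtain ⟨i, hi⟩ := ha
  obtain ⟨j, hj⟩ := hb
  have h1 := nu_data.mono (le_max_left i j) hi
  have h2 := nu_data.mono (le_max_right i j) hj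
  have := nu_data.orth (max i j) a h1 b h2 hne
  push_cast at this
  exact this

/-- the spectrum of `μ` -/
def LamMu : Set ℝ := {x | ∃ l ∈ LamNu, x = 3 * l ∨ x = 3 * l + 3 / 4}

theorem mu_spectrum : IsSpectrum mu LamMu := by
  have hint : ∀ a b : ℤ, ex (2 * (3 * ((a : ℝ) - b)) / 3) = 1 := by
    intro a b
    have := ex_int (2 * (a - b))
    rw [← this]
    congr 1
    push_cast
    ring
  have e34 : ∀ a b : ℤ, ex (2 * (3 * ((a : ℝ) - b) + 3 / 4) / 3) = -1 := by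
    intro a b
    rw [show 2 * (3 * ((a : ℝ) - b) + 3 / 4) / 3 = 2 * (3 * ((a : ℝ) - b)) / 3 + 1 / 2 by ring,
      ex_add, hint, ex_half, one_mul]
  have e34' : ∀ a b : ℤ, ex (2 * (3 * ((a : ℝ) - b) - 3 / 4) / 3) = -1 := by
    intro a b
    have h := ex_add_int (2 * (3 * ((a : ℝ) - b) - 3 / 4) / 3) 1
    rw [← h, show 2 * (3 * ((a : ℝ) - b) - 3 / 4) / 3 + ((1 : ℤ) : ℝ) =
      2 * (3 * ((a : ℝ) - b)) / 3 + 1 / 2 by push_cast; ring, ex_add, hint, ex_half, one_mul]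
  refine isSpectrum_of mu LamMu ?_ ?_
  · rintro x ⟨a, ha, hx⟩ y ⟨b, hb, hy⟩ hne
    rw [F_mu_nu]
    rcases hx with rfl | rfl <;> rcases hy with rfl | rfl
    · have h1 : a ≠ b := by rintro rfl; exact hne rfl
      have h2 := nu_orth ha hb h1
      rw [show (3 * (a : ℝ) - 3 * b) / 3 = (a : ℝ) - b by ring, h2, mul_zero]
    · rw [show 3 * (a : ℝ) - (3 * b + 3 / 4) = 3 * ((a : ℝ) - b) - 3 / 4 by ring, e34']
      simp
    · rw [show 3 * (a : ℝ) + 3 / 4 - 3 * b = 3 * ((a : ℝ) - b) + 3 / 4 by ring, e34]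
      simp
    · have h1 : a ≠ b := by rintro rfl; exact hne rfl
      have h2 := nu_orth ha hb h1
      rw [show (3 * (a : ℝ) + 3 / 4 - (3 * b + 3 / 4)) / 3 = (a : ℝ) - b by ring, h2, mul_zero]
  · intro ξ ε hε
    obtain ⟨c, hc, hlow⟩ := nu_low
    have t1 := nu_data.parseval hc hlow (ξ / 3)
    have t2 := nu_data.parseval hc hlow (ξ / 3 - 1 / 4)
    have t3 := (t1.const_mul (‖1 + ex (2 * ξ / 3)‖ ^ 2 / 4)).add
      (t2.const_mul (‖1 - ex (2 * ξ / 3)‖ ^ 2 / 4))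
    have hn := norm_sq_one_add_add (ex (2 * ξ / 3)) (norm_ex _)
    rw [mul_one, mul_one, show ‖1 + ex (2 * ξ / 3)‖ ^ 2 / 4 + ‖1 - ex (2 * ξ / 3)‖ ^ 2 / 4 = 1 by
      linarith] at t3
    obtain ⟨n, hn'⟩ := (t3.eventually_const_le (show 1 - ε < 1 by linarith)).exists
    classical
    refine ⟨((Lam 12 {0, 3, 6, 9} n).image (fun l : ℤ => 3 * (l : ℝ))) ∪
      ((Lam 12 {0, 3, 6, 9} n).image (fun l : ℤ => 3 * (l : ℝ) + 3 / 4)), ?_, ?_⟩
    · intro x hx
      rw [Finset.mem_union, Finset.mem_image, Finset.mem_image] at hx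
      rcases hx with ⟨l, hl, rfl⟩ | ⟨l, hl, rfl⟩
      · exact ⟨l, ⟨n, hl⟩, Or.inl rfl⟩
      · exact ⟨l, ⟨n, hl⟩, Or.inr rfl⟩
    · refine hn'.trans (le_of_eq ?_)
      rw [Finset.sum_union, Finset.sum_image, Finset.sum_image]
      · congr 1
        · rw [Finset.mul_sum]
          refine Finset.sum_congr rfl (fun l _ => ?_)
          rw [F_mu_nu, norm_mul, mul_pow, norm_div, div_pow]
          have h1 : ex (2 * (ξ - 3 * (l : ℝ)) / 3) = ex (2 * ξ / 3) := by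
            have := ex_add_int (2 * (ξ - 3 * (l : ℝ)) / 3) (2 * l)
            rw [← this]
            congr 1
            push_cast
            ring
          rw [h1, show (ξ - 3 * (l : ℝ)) / 3 = ξ / 3 - l by ring]
          norm_num
        · rw [Finset.mul_sum]
          refine Finset.sum_congr rfl (fun l _ => ?_)
          rw [F_mu_nu, norm_mul, mul_pow, norm_div, div_pow]
          have h1 : ex (2 * (ξ - (3 * (l : ℝ) + 3 / 4)) / 3) = - ex (2 * ξ / 3) := by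
            have := ex_add_int (2 * (ξ - (3 * (l : ℝ) + 3 / 4)) / 3) (2 * l + 1)
            rw [← this, show 2 * (ξ - (3 * (l : ℝ) + 3 / 4)) / 3 + ((2 * l + 1 : ℤ) : ℝ) =
              2 * ξ / 3 + 1 / 2 by push_cast; ring, ex_add, ex_half]
            ring
          rw [h1, show (ξ - (3 * (l : ℝ) + 3 / 4)) / 3 = ξ / 3 - 1 / 4 - l by ring,
            ← sub_eq_add_neg]
          norm_num
      · intro a _ b _ hab
        have hab' : 3 * (a : ℝ) + 3 / 4 = 3 * (b : ℝ) + 3 / 4 := hab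
        have : (a : ℝ) = b := by linarith
        exact_mod_cast this
      · intro a _ b _ hab
        have hab' : 3 * (a : ℝ) = 3 * (b : ℝ) := hab
        have : (a : ℝ) = b := by linarith
        exact_mod_cast this
      · rw [Finset.disjoint_left]
        intro x hx hy
        rw [Finset.mem_image] at hx hy
        obtain ⟨a, _, rfl⟩ := hx
        obtain ⟨b, _, hb⟩ := hy
        have h1 : (4 * (a - b) : ℝ) = 1 := by linarith
        have h2 : (4 * (a - b) : ℤ) = 1 := by exact_mod_cast h1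
        omega

end Pool.Agent.X212.Spec
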