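import Pool.Agent.X212.Spec.Fourier

/-!
# Spectra of self-similar measures with a Hadamard triple, when the Fourier transform has no zeros
near `[-1, 1]`
-/

set_option autoImplicit false
set_option linter.unusedSectionVars false

open MeasureTheory Set Filter Topology Complex
open scoped ENNReal Real ComplexConjugate InnerProductSpace

namespace Pool.Agent.X212.Spec

/-- `Λ_0 = {0}`, `Λ_{n+1} = L + R Λ_n` -/
def Lam (R : ℤ) (L : Finset ℤ) : ℕ → Finset ℤ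
  | 0 => {0}
  | n + 1 => (L ×ˢ Lam R L n).image (fun p => p.1 + R * p.2)

/-- `M_n(ξ) = m(ξ/R) ... m(ξ/R^n)` -/
noncomputable def Mn (R : ℤ) (m : ℝ → ℂ) : ℕ → ℝ → ℂ
  | 0, _ => 1
  | n + 1, ξ => m (ξ / R) * Mn R m n (ξ / R)

/-- The hypotheses. -/
structure Data (R : ℤ) (L : Finset ℤ) (m : ℝ → ℂ) (ν : Measure ℝ) : Prop where
  hR : 2 ≤ R
  zero : (0 : ℤ) ∈ L
  nonneg : ∀ l ∈ L, 0 ≤ l
  lt : ∀ l ∈ L, l < R
  per : ∀ (ξ : ℝ) (n : ℤ), m (ξ + n) = m ξ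
  m0 : m 0 = 1
  sum : ∀ ξ : ℝ, ∑ l ∈ L, ‖m (ξ - l / R)‖ ^ 2 = 1
  F : ∀ ξ : ℝ, F ν ξ = m (ξ / R) * F ν (ξ / R)

section

variable {R : ℤ} {L : Finset ℤ} {m : ℝ → ℂ} {ν : Measure ℝ}

theorem Data.Rpos (h : Data R L m ν) : (0 : ℝ) < R := by
  have := h.hR
  exact_mod_cast (by omega : (0 : ℤ) < R)

theorem Data.inj (h : Data R L m ν) (n : ℕ) :
    Set.InjOn (fun p : ℤ × ℤ => p.1 + R * p.2) (L ×ˢ Lam R L n : Finset (ℤ × ℤ)) := by
  rintro ⟨a, b⟩ hab ⟨c, d⟩ hcd heq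
  simp only [Finset.coe_product, Set.mem_prod, Finset.mem_coe] at hab hcd
  have h1 := h.nonneg a hab.1
  have h2 := h.lt a hab.1
  have h3 := h.nonneg c hcd.1
  have h4 := h.lt c hcd.1
  have heq' : a + R * b = c + R * d := heq
  have h5 : a = c := by
    have e1 : (a + R * b) % R = a := by
      rw [Int.add_mul_emod_self_left, Int.emod_eq_of_lt h1 h2]
    have e2 : (c + R * d) % R = c := by
      rw [Int.add_mul_emod_self_left, Int.emod_eq_of_lt h3 h4]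
    rw [← e1, ← e2, heq']
  subst h5
  have h6 : R * b = R * d := by linarith
  have h7 : R ≠ 0 := by have := h.hR; omega
  have h8 : b = d := mul_left_cancel₀ h7 h6
  rw [h8]

theorem Data.sum_succ (h : Data R L m ν) (n : ℕ) (f : ℤ → ℝ) :
    ∑ l ∈ Lam R L (n + 1), f l = ∑ a ∈ L, ∑ b ∈ Lam R L n, f (a + R * b) := by
  rw [Lam, Finset.sum_image (h.inj n), Finset.sum_product]

theorem Data.sum_M (h : Data R L m ν) (n : ℕ) (ξ : ℝ) :
    ∑ l ∈ Lam R L n, ‖Mn R m n (ξ - l)‖ ^ 2 = 1 := by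
  have hR := h.Rpos
  induction n generalizing ξ with
  | zero => simp [Lam, Mn]
  | succ n ih =>
    rw [h.sum_succ n (fun l => ‖Mn R m (n + 1) (ξ - l)‖ ^ 2)]
    rw [← h.sum (ξ / R)]
    refine Finset.sum_congr rfl (fun a _ => ?_)
    have h1 : ∀ b : ℤ, (ξ - ((a + R * b : ℤ) : ℝ)) / R = (ξ / R - a / R) - b := by
      intro b
      push_cast
      field_simp
      ring
    have h2 : ∀ b : ℤ, ‖Mn R m (n + 1) (ξ - ((a + R * b : ℤ) : ℝ))‖ ^ 2 =
        ‖m (ξ / R - a / R)‖ ^ 2 * ‖Mn R m n ((ξ / R - a / R) - b)‖ ^ 2 := by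
      intro b
      show ‖m ((ξ - ((a + R * b : ℤ) : ℝ)) / R) * Mn R m n ((ξ - ((a + R * b : ℤ) : ℝ)) / R)‖ ^ 2 = _
      rw [h1, norm_mul, mul_pow]
      congr 3
      have := h.per (ξ / R - a / R) (-b)
      rw [← this]
      congr 1
      push_cast
      ring
    simp only [h2]
    rw [← Finset.mul_sum, ih, mul_one]

theorem Data.m_zero (h : Data R L m ν) {a b : ℤ} (ha : a ∈ L) (hb : b ∈ L) (hne : a ≠ b) :
    m (((a - b : ℤ) : ℝ) / R) = 0 := by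
  have h1 := h.sum (a / R)
  have h2 : ‖m ((a : ℝ) / R - (a : ℝ) / R)‖ ^ 2 + ‖m ((a : ℝ) / R - (b : ℝ) / R)‖ ^ 2 ≤ 1 := by
    rw [← h1, ← Finset.sum_pair (f := fun l : ℤ => ‖m ((a : ℝ) / R - (l : ℝ) / R)‖ ^ 2) hne]
    refine Finset.sum_le_sum_of_subset_of_nonneg ?_ (fun _ _ _ => by positivity)
    intro x hx
    rw [Finset.mem_insert, Finset.mem_singleton] at hx
    rcases hx with rfl | rfl
    · exact ha
    · exact hb
  rw [sub_self, h.m0, norm_one, one_pow] at h2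
  have h3 : ‖m ((a : ℝ) / R - (b : ℝ) / R)‖ ^ 2 ≤ 0 := by linarith
  have h4 : ‖m ((a : ℝ) / R - (b : ℝ) / R)‖ = 0 := by
    have := sq_nonneg ‖m ((a : ℝ) / R - (b : ℝ) / R)‖
    exact pow_eq_zero_iff (two_ne_zero) |>.1 (le_antisymm h3 this)
  rw [norm_eq_zero] at h4
  rw [← h4]
  congr 1
  push_cast
  ring

theorem Data.orth (h : Data R L m ν) (n : ℕ) : ∀ a ∈ Lam R L n, ∀ b ∈ Lam R L n, a ≠ b →
    Pool.Agent.X212.Spec.F ν (((a - b : ℤ) : ℝ)) = 0 := by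
  have hR := h.Rpos
  induction n with
  | zero =>
    intro a ha b hb hne
    simp only [Lam, Finset.mem_singleton] at ha hb
    exact absurd (ha.trans hb.symm) hne
  | succ n ih =>
    intro a ha b hb hne
    simp only [Lam, Finset.mem_image, Finset.mem_product, Prod.exists] at ha hb
    obtain ⟨a1, a2, ⟨h1, h2⟩, rfl⟩ := ha
    obtain ⟨b1, b2, ⟨h3, h4⟩, rfl⟩ := hb
    rw [h.F]
    have e1 : (((a1 + R * a2 - (b1 + R * b2) : ℤ) : ℝ)) / R =
        ((a1 - b1 : ℤ) : ℝ) / R + ((a2 - b2 : ℤ) : ℝ) := by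
      push_cast
      field_simp
      ring
    rw [e1]
    by_cases hc : a1 = b1
    · subst hc
      have h5 : a2 ≠ b2 := by
        rintro rfl
        exact hne rfl
      have h6 := ih a2 h2 b2 h4 h5
      rw [sub_self, Int.cast_zero, zero_div, zero_add, h6, mul_zero]
    · rw [h.per, h.m_zero h1 h3 hc, zero_mul]

theorem Data.mono_succ (h : Data R L m ν) (n : ℕ) : Lam R L n ⊆ Lam R L (n + 1) := by
  induction n with
  | zero =>
    intro a ha
    simp only [Lam, Finset.mem_singleton] at ha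
    subst ha
    simp only [Lam, Finset.mem_image, Finset.mem_product, Prod.exists, Finset.mem_singleton]
    exact ⟨0, 0, ⟨h.zero, rfl⟩, by simp⟩
  | succ n ih =>
    intro a ha
    rw [Lam] at ha
    rw [Lam]
    simp only [Finset.mem_image, Finset.mem_product, Prod.exists] at ha ⊢
    obtain ⟨a1, a2, ⟨h1, h2⟩, rfl⟩ := ha
    exact ⟨a1, a2, ⟨h1, ih h2⟩, rfl⟩

theorem Data.mono (h : Data R L m ν) : Monotone (Lam R L) := monotone_nat_of_le_succ h.mono_succ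

theorem Data.bound (h : Data R L m ν) (n : ℕ) : ∀ a ∈ Lam R L n, 0 ≤ a ∧ a < R ^ n := by
  have hR := h.hR
  induction n with
  | zero =>
    intro a ha
    simp only [Lam, Finset.mem_singleton] at ha
    subst ha
    simp
  | succ n ih =>
    intro a ha
    simp only [Lam, Finset.mem_image, Finset.mem_product, Prod.exists] at ha
    obtain ⟨a1, a2, ⟨h1, h2⟩, rfl⟩ := ha
    have h3 := h.nonneg a1 h1
    have h4 := h.lt a1 h1
    obtain ⟨h5, h6⟩ := ih a2 h2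
    refine ⟨by positivity, ?_⟩
    rw [pow_succ]
    nlinarith

theorem Data.F_eq (h : Data R L m ν) (n : ℕ) (ξ : ℝ) :
    Pool.Agent.X212.Spec.F ν ξ = Mn R m n ξ * Pool.Agent.X212.Spec.F ν (ξ / R ^ n) := by
  induction n generalizing ξ with
  | zero => simp [Mn]
  | succ n ih =>
    rw [h.F, ih (ξ / R)]
    show _ = m (ξ / R) * Mn R m n (ξ / R) * _
    rw [mul_assoc]
    congr 3
    rw [div_div, pow_succ]
    congr 1
    ring

/-- a lower bound near `[-1,1]` -/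
theorem Data.parseval (h : Data R L m ν) [IsProbabilityMeasure ν] {c : ℝ} (hc : 0 < c)
    (hlow : ∀ ξ : ℝ, |ξ| ≤ 3 / 2 → c ≤ ‖Pool.Agent.X212.Spec.F ν ξ‖) (ξ : ℝ) :
    Tendsto (fun n => ∑ l ∈ Lam R L n, ‖Pool.Agent.X212.Spec.F ν (ξ - l)‖ ^ 2) atTop (𝓝 1) := by
  have hR := h.Rpos
  have hR2 : (2 : ℝ) ≤ R := by exact_mod_cast h.hR
  set a : ℤ → ℝ := fun l => ‖Pool.Agent.X212.Spec.F ν (ξ - l)‖ ^ 2 with ha
  have ha0 : ∀ l, 0 ≤ a l := fun l => by positivity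
  have hle : ∀ n, ∀ l, a l ≤ ‖Mn R m n (ξ - l)‖ ^ 2 := by
    intro n l
    simp only [ha]
    rw [h.F_eq n, norm_mul, mul_pow]
    have h1 := norm_F_le ν ((ξ - l) / R ^ n)
    have h2 : ‖Pool.Agent.X212.Spec.F ν ((ξ - l) / R ^ n)‖ ^ 2 ≤ 1 :=
      pow_le_one₀ (norm_nonneg _) h1
    exact mul_le_of_le_one_right (by positivity) h2
  have hT1 : ∀ n, ∑ l ∈ Lam R L n, a l ≤ 1 := by
    intro n
    rw [← h.sum_M n ξ]
    exact Finset.sum_le_sum (fun l _ => hle n l)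
  have hmono : Monotone (fun n => ∑ l ∈ Lam R L n, a l) := by
    intro i j hij
    exact Finset.sum_le_sum_of_subset_of_nonneg (h.mono hij) (fun l _ _ => ha0 l)
  have hbdd : BddAbove (Set.range (fun n => ∑ l ∈ Lam R L n, a l)) := ⟨1, by
    rintro _ ⟨n, rfl⟩
    exact hT1 n⟩
  have hlim := tendsto_atTop_ciSup hmono hbdd
  set S := ⨆ n, ∑ l ∈ Lam R L n, a l with hS
  have hS1 : S ≤ 1 := ciSup_le hT1
  -- `R^n` is large
  have hpow : Tendsto (fun n : ℕ => ((R : ℝ) ^ n)) atTop atTop :=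
    tendsto_pow_atTop_atTop_of_one_lt (by linarith)
  have hMlim : ∀ l : ℤ, Tendsto (fun n => ‖Mn R m n (ξ - l)‖ ^ 2) atTop (𝓝 (a l)) := by
    intro l
    have h1 : Tendsto (fun n : ℕ => (ξ - l) / (R : ℝ) ^ n) atTop (𝓝 0) :=
      Tendsto.div_atTop tendsto_const_nhds hpow
    have h2 : Tendsto (fun n : ℕ => Pool.Agent.X212.Spec.F ν ((ξ - l) / (R : ℝ) ^ n)) atTop
        (𝓝 1) := by
      have := ((continuous_F ν).tendsto 0).comp h1
      rwa [F_zero] at this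
    have h3 : Tendsto (fun n : ℕ => Pool.Agent.X212.Spec.F ν (ξ - l) /
        Pool.Agent.X212.Spec.F ν ((ξ - l) / (R : ℝ) ^ n)) atTop
        (𝓝 (Pool.Agent.X212.Spec.F ν (ξ - l))) := by
      have := (tendsto_const_nhds (x := Pool.Agent.X212.Spec.F ν (ξ - l))).div h2 one_ne_zero
      rwa [div_one] at this
    have h4 : ∀ᶠ n : ℕ in atTop, Pool.Agent.X212.Spec.F ν (ξ - l) /
        Pool.Agent.X212.Spec.F ν ((ξ - l) / (R : ℝ) ^ n) = Mn R m n (ξ - l) := by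
      filter_upwards [h2.eventually_ne one_ne_zero] with n hn
      rw [h.F_eq n (ξ - l)]
      field_simp
    exact ((h3.congr' h4).norm.pow 2)
  have hkey : ∀ k, 1 ≤ ∑ l ∈ Lam R L k, a l + (c ^ 2)⁻¹ * (S - ∑ l ∈ Lam R L k, a l) := by
    intro k
    have h1 : Tendsto (fun n => ∑ l ∈ Lam R L k, ‖Mn R m n (ξ - l)‖ ^ 2 +
        (c ^ 2)⁻¹ * (∑ l ∈ Lam R L n, a l - ∑ l ∈ Lam R L k, a l)) atTop
        (𝓝 (∑ l ∈ Lam R L k, a l + (c ^ 2)⁻¹ * (S - ∑ l ∈ Lam R L k, a l))) := by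
      refine Tendsto.add ?_ (Tendsto.const_mul _ (Tendsto.sub_const hlim _))
      exact tendsto_finset_sum _ (fun l _ => hMlim l)
    refine ge_of_tendsto h1 ?_
    have h2 : ∀ᶠ n : ℕ in atTop, 2 * |ξ| ≤ (R : ℝ) ^ n := hpow.eventually_ge_atTop _
    filter_upwards [h2, eventually_ge_atTop k] with n hn hkn
    rw [← h.sum_M n ξ, ← Finset.sum_sdiff (h.mono hkn), add_comm]
    refine add_le_add le_rfl ?_
    rw [← Finset.sum_sdiff_eq_sub (h.mono hkn), Finset.mul_sum]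
    refine Finset.sum_le_sum (fun l hl => ?_)
    have hl' := h.bound n l (Finset.mem_sdiff.1 hl).1
    have h3 : |(ξ - l) / (R : ℝ) ^ n| ≤ 3 / 2 := by
      have hp : (0 : ℝ) < (R : ℝ) ^ n := by positivity
      rw [abs_div, abs_of_pos hp, div_le_iff₀ hp]
      have h4 : (l : ℝ) ≤ (R : ℝ) ^ n := by exact_mod_cast hl'.2.le
      have h5 : (0 : ℝ) ≤ l := by exact_mod_cast hl'.1
      calc |ξ - l| ≤ |ξ| + |(l : ℝ)| := abs_sub _ _
        _ ≤ (R : ℝ) ^ n / 2 + (R : ℝ) ^ n := by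
            rw [abs_of_nonneg h5]
            linarith
        _ = 3 / 2 * (R : ℝ) ^ n := by ring
    have h6 := hlow _ h3
    simp only [ha]
    rw [h.F_eq n (ξ - l), norm_mul, mul_pow]
    have h7 : c ^ 2 ≤ ‖Pool.Agent.X212.Spec.F ν ((ξ - l) / R ^ n)‖ ^ 2 :=
      pow_le_pow_left₀ hc.le h6 2
    have h8 : 1 ≤ (c ^ 2)⁻¹ * ‖Pool.Agent.X212.Spec.F ν ((ξ - l) / R ^ n)‖ ^ 2 := by
      rw [inv_mul_eq_div, le_div_iff₀ (by positivity), one_mul]
      exact h7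
    calc ‖Mn R m n (ξ - l)‖ ^ 2 = ‖Mn R m n (ξ - l)‖ ^ 2 * 1 := (mul_one _).symm
      _ ≤ ‖Mn R m n (ξ - l)‖ ^ 2 * ((c ^ 2)⁻¹ *
          ‖Pool.Agent.X212.Spec.F ν ((ξ - l) / R ^ n)‖ ^ 2) :=
          mul_le_mul_of_nonneg_left h8 (by positivity)
      _ = _ := by ring
  have hS2 : 1 ≤ S := by
    have h1 : Tendsto (fun k => ∑ l ∈ Lam R L k, a l + (c ^ 2)⁻¹ * (S - ∑ l ∈ Lam R L k, a l))
        atTop (𝓝 (S + (c ^ 2)⁻¹ * (S - S))) :=
      Tendsto.add hlim (Tendsto.const_mul _ (Tendsto.const_sub _ hlim))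
    rw [sub_self, mul_zero, add_zero] at h1
    exact ge_of_tendsto' h1 hkey
  have : S = 1 := le_antisymm hS1 hS2
  rw [← this]
  exact hlim

end

end Pool.Agent.X212.Spec
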